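import Mathlib

/-!
# ZC/Mertens: Mertens' first theorem for the von Mangoldt function

`log (n!) = ∑_{d ≤ n} Λ(d) ⌊n / d⌋` (from `ArithmeticFunction.vonMangoldt_sum`: `∑_{d ∣ m} Λ d = log m`, sum over
`m ≤ n`; Mathlib may have it), `n log n - n ≤ log n! ≤ n log n` (Stirling's easy bounds), and
`0 ≤ n / d - ⌊n / d⌋ ≤ 1` with Chebyshev `∑_{d ≤ n} Λ d ≤ C n` (`Chebyshev.psi_le_const_mul_self`).
So `|∑_{d ≤ n} Λ d / d - log n| ≤ C`. For real `x ≥ 1`: `|log x - log ⌊x⌋| ≤ log 2`.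
-/

namespace Pool.Agent.ZC

open ArithmeticFunction

private theorem log_fac (N : ℕ) :
    Real.log (N.factorial) = ∑ n ∈ Finset.Ioc 0 N, vonMangoldt n * ((N / n : ℕ) : ℝ) := by
  rw [← ArithmeticFunction.sum_Ioc_mul_zeta_eq_sum]
  rw [vonMangoldt_mul_zeta]
  induction N with
  | zero => simp
  | succ N ih =>
    rw [Nat.factorial_succ, Nat.cast_mul, Real.log_mul (by positivity)
      (by exact_mod_cast Nat.factorial_ne_zero N), ih, Finset.sum_Ioc_succ_top (Nat.zero_le N), add_comm]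
    rfl

private theorem mertens_nat (N : ℕ) (hN : 1 ≤ N) :
    Real.log N - 1 ≤ ∑ n ∈ Finset.Icc 1 N, vonMangoldt n / (n : ℝ) ∧
    ∑ n ∈ Finset.Icc 1 N, vonMangoldt n / (n : ℝ) ≤ Real.log N + (Real.log 4 + 4) := by
  have hNr : (0 : ℝ) < N := by exact_mod_cast hN
  have hI : Finset.Icc 1 N = Finset.Ioc 0 N := by
    ext n
    simp only [Finset.mem_Icc, Finset.mem_Ioc]
    omega
  rw [hI]
  have hsum : (N : ℝ) * ∑ n ∈ Finset.Ioc 0 N, vonMangoldt n / (n : ℝ) =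
      ∑ n ∈ Finset.Ioc 0 N, vonMangoldt n * ((N : ℝ) / n) := by
    rw [Finset.mul_sum]
    refine Finset.sum_congr rfl fun n _ => ?_
    ring
  have hlow : ∑ n ∈ Finset.Ioc 0 N, vonMangoldt n * ((N / n : ℕ) : ℝ) ≤
      ∑ n ∈ Finset.Ioc 0 N, vonMangoldt n * ((N : ℝ) / n) := by
    refine Finset.sum_le_sum fun n _ => ?_
    exact mul_le_mul_of_nonneg_left Nat.cast_div_le vonMangoldt_nonneg
  have hpsi : ∑ n ∈ Finset.Ioc 0 N, vonMangoldt n ≤ (Real.log 4 + 4) * N := by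
    have h := Chebyshev.psi_le_const_mul_self (x := (N : ℝ)) hNr.le
    unfold Chebyshev.psi at h
    rwa [Nat.floor_natCast] at h
  have hup : ∑ n ∈ Finset.Ioc 0 N, vonMangoldt n * ((N : ℝ) / n) ≤
      ∑ n ∈ Finset.Ioc 0 N, vonMangoldt n * ((N / n : ℕ) : ℝ) +
        ∑ n ∈ Finset.Ioc 0 N, vonMangoldt n := by
    rw [← Finset.sum_add_distrib]
    refine Finset.sum_le_sum fun n hn => ?_
    rw [Finset.mem_Ioc] at hn
    have h1 : (N : ℝ) / n ≤ ((N / n : ℕ) : ℝ) + 1 := by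
      have h2 := Nat.lt_div_mul_add (a := N) (b := n) hn.1
      have h3 : (N : ℝ) < ((N / n : ℕ) : ℝ) * n + n := by exact_mod_cast h2
      have hn0 : (0 : ℝ) < n := by exact_mod_cast hn.1
      rw [div_le_iff₀ hn0]
      linarith
    calc vonMangoldt n * ((N : ℝ) / n) ≤ vonMangoldt n * (((N / n : ℕ) : ℝ) + 1) :=
          mul_le_mul_of_nonneg_left h1 vonMangoldt_nonneg
      _ = vonMangoldt n * ((N / n : ℕ) : ℝ) + vonMangoldt n := by ring
  rw [← log_fac] at hlow hup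
  have hf1 : N * Real.log N - N ≤ Real.log (N.factorial) := by
    have := Stirling.le_log_factorial_stirling (n := N) (by omega)
    have h2 : 0 ≤ Real.log N := Real.log_nonneg (by exact_mod_cast hN)
    have h3 : 0 ≤ Real.log (2 * Real.pi) := Real.log_nonneg (by nlinarith [Real.pi_gt_three])
    linarith
  have hf2 : Real.log (N.factorial) ≤ N * Real.log N := by
    rw [← Real.log_pow]
    refine Real.log_le_log (by exact_mod_cast Nat.factorial_pos N) ?_
    exact_mod_cast Nat.factorial_le_pow N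
  constructor
  · have : (N : ℝ) * (Real.log N - 1) ≤ N * ∑ n ∈ Finset.Ioc 0 N, vonMangoldt n / (n : ℝ) := by
      rw [hsum]
      linarith
    exact le_of_mul_le_mul_left this hNr
  · have : (N : ℝ) * ∑ n ∈ Finset.Ioc 0 N, vonMangoldt n / (n : ℝ) ≤
        N * (Real.log N + (Real.log 4 + 4)) := by
      rw [hsum]
      linarith
    exact le_of_mul_le_mul_left this hNr

theorem mertens : ∃ C : ℝ, 0 < C ∧ ∀ x : ℝ, 1 ≤ x →
    |(∑ n ∈ Finset.Icc 1 ⌊x⌋₊, vonMangoldt n / (n : ℝ)) - Real.log x| ≤ C := by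
  refine ⟨Real.log 4 + 5, by positivity, fun x hx => ?_⟩
  have hN : 1 ≤ ⌊x⌋₊ := by
    rw [Nat.one_le_floor_iff]
    exact hx
  obtain ⟨h1, h2⟩ := mertens_nat ⌊x⌋₊ hN
  have hN0 : (1 : ℝ) ≤ (⌊x⌋₊ : ℝ) := by exact_mod_cast hN
  have hx0 : (0 : ℝ) < x := by linarith
  have h3 : Real.log (⌊x⌋₊ : ℝ) ≤ Real.log x :=
    Real.log_le_log (by linarith) (Nat.floor_le hx0.le)
  have h4 : Real.log x ≤ Real.log (⌊x⌋₊ : ℝ) + Real.log 2 := by
    rw [← Real.log_mul (by linarith) (by norm_num)]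
    apply Real.log_le_log hx0
    have := Nat.lt_floor_add_one x
    linarith
  have h5 : Real.log 2 ≤ 1 := by
    have := Real.log_two_lt_d9
    linarith
  have h6 : 0 ≤ Real.log 4 := Real.log_nonneg (by norm_num)
  rw [abs_le]
  constructor <;> linarith

end Pool.Agent.ZC
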