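import Pool.Agent.PCZ.Defs

/-!
# ZC/GConv: the self-convolution of a kernel

`gth θ g x = g (x / θ) / θ` for `|x| ≤ θ / 2`, zero otherwise (bounded, measurable, compact support, even);
`gconv θ g u = ∫ gth x * gth (u - x) dx`. Continuity: dominated convergence
(`gth (u - x)` is continuous in `u` for all `x` with `|u - x| ≠ θ/2`), or `gconv` is the convolution of an integrable and a
bounded function with compact support, or as an interval integral
`∫ x in max (-θ/2) (u - θ/2) .. min (θ/2) (u + θ/2), ...` for `|u| ≤ θ`.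
`gconv_zero`: evenness, substitute `x = θ α`.
-/

namespace Pool.Agent.ZC

open Complex MeasureTheory Pool.Agent.PCZ

/-- the scaled and truncated kernel -/
noncomputable def gth (θ : ℝ) (g : ℝ → ℝ) (x : ℝ) : ℝ :=
  if |x| ≤ θ / 2 then g (x / θ) / θ else 0

/-- its self-convolution -/
noncomputable def gconv (θ : ℝ) (g : ℝ → ℝ) (u : ℝ) : ℝ := ∫ x : ℝ, gth θ g x * gth θ g (u - x)

theorem gth_eq_ind (θ : ℝ) (g : ℝ → ℝ) :
    gth θ g = (Set.Icc (-(θ / 2)) (θ / 2)).indicator (fun x => g (x / θ) / θ) := by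
  funext x
  unfold gth Set.indicator
  simp only [Set.mem_Icc, abs_le]

theorem gth_fcont {g : ℝ → ℝ} (hg : Ker g) (θ : ℝ) : Continuous (fun x => g (x / θ) / θ) :=
  (hg.cont.comp (continuous_id.div_const θ)).div_const θ

theorem gth_integrable {g : ℝ → ℝ} (hg : Ker g) {θ : ℝ} (hθ : 0 < θ) : Integrable (gth θ g) := by
  rw [gth_eq_ind, integrable_indicator_iff measurableSet_Icc]
  exact (gth_fcont hg θ).continuousOn.integrableOn_compact isCompact_Icc

theorem gth_meas {g : ℝ → ℝ} (hg : Ker g) (θ : ℝ) : Measurable (gth θ g) := by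
  rw [gth_eq_ind]
  exact (gth_fcont hg θ).measurable.indicator measurableSet_Icc

theorem gth_nonneg {g : ℝ → ℝ} (hg : Ker g) {θ : ℝ} (hθ : 0 < θ) (x : ℝ) : 0 ≤ gth θ g x := by
  unfold gth
  split_ifs
  · exact div_nonneg (hg.nonneg _) hθ.le
  · exact le_refl 0

theorem gth_bdd {g : ℝ → ℝ} (hg : Ker g) {θ : ℝ} (hθ : 0 < θ) :
    ∃ B : ℝ, ∀ x, ‖gth θ g x‖ ≤ B := by
  obtain ⟨B, hB⟩ := (isCompact_Icc (a := -(θ / 2)) (b := θ / 2)).exists_bound_of_continuousOn
    (gth_fcont hg θ).continuousOn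
  refine ⟨max B 0, fun x => ?_⟩
  rw [gth_eq_ind]
  by_cases hx : x ∈ Set.Icc (-(θ / 2)) (θ / 2)
  · rw [Set.indicator_of_mem hx]
    exact (hB x hx).trans (le_max_left _ _)
  · rw [Set.indicator_of_notMem hx, norm_zero]
    exact le_max_right _ _

theorem gth_even {g : ℝ → ℝ} (hg : Ker g) (θ x : ℝ) : gth θ g (-x) = gth θ g x := by
  unfold gth
  rw [abs_neg, neg_div, hg.even]

theorem gth_contAt {g : ℝ → ℝ} (hg : Ker g) {θ : ℝ} {y : ℝ} (hy : |y| ≠ θ / 2) :
    ContinuousAt (gth θ g) y := by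
  rcases lt_or_gt_of_ne hy with h | h
  · have h1 : (fun x => g (x / θ) / θ) =ᶠ[nhds y] gth θ g := by
      have : ∀ᶠ x in nhds y, |x| < θ / 2 := continuous_abs.continuousAt.eventually_lt
        continuousAt_const h
      filter_upwards [this] with x hx
      unfold gth
      rw [if_pos hx.le]
    exact (gth_fcont hg θ).continuousAt.congr h1
  · have h1 : (fun _ => (0 : ℝ)) =ᶠ[nhds y] gth θ g := by
      have : ∀ᶠ x in nhds y, θ / 2 < |x| := continuousAt_const.eventually_lt
        continuous_abs.continuousAt h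
      filter_upwards [this] with x hx
      unfold gth
      rw [if_neg (not_le.2 hx)]
    exact continuousAt_const.congr h1

theorem gth_zero_of {g : ℝ → ℝ} {θ x : ℝ} (hx : θ / 2 < |x|) : gth θ g x = 0 := by
  unfold gth
  rw [if_neg (not_le.2 hx)]

theorem gth_mul_integrable {g : ℝ → ℝ} (hg : Ker g) {θ : ℝ} (hθ : 0 < θ) (u : ℝ) :
    Integrable fun x => gth θ g x * gth θ g (u - x) := by
  obtain ⟨B, hB⟩ := gth_bdd hg hθ
  exact (gth_integrable hg hθ).mul_bdd
    ((gth_meas hg θ).comp (measurable_const.sub measurable_id)).aestronglyMeasurable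
    (Filter.Eventually.of_forall fun x => hB (u - x))

theorem gconv_cont {g : ℝ → ℝ} (hg : Ker g) {θ : ℝ} (hθ : 0 < θ) : Continuous (gconv θ g) := by
  obtain ⟨B, hB⟩ := gth_bdd hg hθ
  rw [continuous_iff_continuousAt]
  intro u₀
  unfold gconv
  apply continuousAt_of_dominated (bound := fun x => ‖gth θ g x‖ * B)
  · exact Filter.Eventually.of_forall fun u => (gth_mul_integrable hg hθ u).aestronglyMeasurable
  · refine Filter.Eventually.of_forall fun u => Filter.Eventually.of_forall fun x => ?_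
    rw [norm_mul]
    exact mul_le_mul_of_nonneg_left (hB _) (norm_nonneg _)
  · exact (gth_integrable hg hθ).norm.mul_const B
  · have h0 : (volume : Measure ℝ) {u₀ - θ / 2, u₀ + θ / 2} = 0 :=
      (Set.toFinite ({u₀ - θ / 2, u₀ + θ / 2} : Set ℝ)).measure_zero _
    have h1 : ∀ᵐ x ∂(volume : Measure ℝ), x ∉ ({u₀ - θ / 2, u₀ + θ / 2} : Set ℝ) :=
      measure_eq_zero_iff_ae_notMem.1 h0
    filter_upwards [h1] with x hx
    have h2 : |u₀ - x| ≠ θ / 2 := by
      intro h
      apply hx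
      simp only [Set.mem_insert_iff, Set.mem_singleton_iff]
      rcases abs_eq (by positivity : (0 : ℝ) ≤ θ / 2) |>.1 h with h | h
      · left; linarith
      · right; linarith
    have h3 : ContinuousAt (fun u : ℝ => u - x) u₀ := by fun_prop
    exact continuousAt_const.mul (ContinuousAt.comp (f := fun u : ℝ => u - x) (gth_contAt hg h2) h3)

theorem gconv_nonneg {g : ℝ → ℝ} (hg : Ker g) {θ : ℝ} (hθ : 0 < θ) (u : ℝ) : 0 ≤ gconv θ g u :=
  integral_nonneg fun x => mul_nonneg (gth_nonneg hg hθ x) (gth_nonneg hg hθ (u - x))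

theorem gconv_supp {g : ℝ → ℝ} (hg : Ker g) {θ : ℝ} (hθ : 0 < θ) {u : ℝ} (hu : θ < |u|) :
    gconv θ g u = 0 := by
  unfold gconv
  have : (fun x => gth θ g x * gth θ g (u - x)) = fun _ => (0 : ℝ) := by
    funext x
    by_cases hx : θ / 2 < |x|
    · rw [gth_zero_of hx, zero_mul]
    · have h2 : θ / 2 < |u - x| := by
        have := abs_sub_abs_le_abs_sub u x
        push Not at hx
        linarith
      rw [gth_zero_of h2, mul_zero]
  rw [this, integral_zero]

theorem gconv_even {g : ℝ → ℝ} (hg : Ker g) {θ : ℝ} (hθ : 0 < θ) (u : ℝ) :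
    gconv θ g (-u) = gconv θ g u := by
  unfold gconv
  rw [← integral_neg_eq_self (fun x => gth θ g x * gth θ g (-u - x))]
  congr 1
  funext x
  rw [gth_even hg, show -u - -x = -(u - x) by ring, gth_even hg]

/-- integration against the scaled kernel -/
theorem gth_int {E : Type*} [NormedAddCommGroup E] [NormedSpace ℝ E] (g : ℝ → ℝ) {θ : ℝ}
    (hθ : 0 < θ) (F : ℝ → E) :
    ∫ x : ℝ, gth θ g x • F x = ∫ α in (-1/2 : ℝ)..(1/2), g α • F (θ * α) := by
  have h1 : (fun x => gth θ g x • F x) =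
      (Set.Icc (-(θ / 2)) (θ / 2)).indicator (fun x => (g (x / θ) / θ) • F x) := by
    funext x
    rw [gth_eq_ind]
    by_cases hx : x ∈ Set.Icc (-(θ / 2)) (θ / 2)
    · rw [Set.indicator_of_mem hx, Set.indicator_of_mem hx]
    · rw [Set.indicator_of_notMem hx, Set.indicator_of_notMem hx, zero_smul]
  rw [h1, integral_indicator measurableSet_Icc, integral_Icc_eq_integral_Ioc,
    ← intervalIntegral.integral_of_le (by linarith)]
  have h2 := intervalIntegral.smul_integral_comp_mul_left (a := -1/2) (b := 1/2)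
    (fun x => (g (x / θ) / θ) • F x) θ
  rw [show θ * (-1/2) = -(θ / 2) by ring, show θ * (1/2) = θ / 2 by ring] at h2
  rw [← h2, ← intervalIntegral.integral_smul]
  congr 1
  funext α
  rw [mul_div_cancel_left₀ _ hθ.ne', smul_smul, mul_div_cancel₀ _ hθ.ne']

theorem gconv_zero {g : ℝ → ℝ} (hg : Ker g) {θ : ℝ} (hθ : 0 < θ) :
    gconv θ g 0 = 1 / θ * ∫ α in (-1/2 : ℝ)..(1/2), g α ^ 2 := by
  unfold gconv
  have h1 := gth_int g hθ (fun x => gth θ g (0 - x))
  simp only [smul_eq_mul] at h1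
  rw [h1, ← intervalIntegral.integral_const_mul]
  apply intervalIntegral.integral_congr
  intro α hα
  rw [Set.uIcc_of_le (by norm_num), Set.mem_Icc] at hα
  simp only []
  rw [zero_sub, gth_even hg]
  unfold gth
  rw [if_pos, mul_div_cancel_left₀ _ hθ.ne']
  · ring
  · rw [abs_mul, abs_of_pos hθ]
    have : |α| ≤ 1 / 2 := abs_le.2 ⟨by linarith [hα.1], hα.2⟩
    calc θ * |α| ≤ θ * (1 / 2) := mul_le_mul_of_nonneg_left this hθ.le
      _ = θ / 2 := by ring

end Pool.Agent.ZC
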