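import Mathlib

/-!
# ZC/Strip: moving a vertical line of integration

`line_integrable`: `τ ↦ F (a + τ i)` is continuous and bounded by `C / (1 + τ ^ 2)`
(`integrable_inv_one_add_sq`).
`strip_shift`: Cauchy on the rectangle `[a, b] × [-R, R]`
(`Complex.integral_boundary_rect_eq_zero_of_differentiableOn` with the corners `a - R i`, `b + R i`); the
two horizontal sides are bounded by `(b - a) C / (1 + R ^ 2) → 0`, the vertical sides converge to the full
integrals (`MeasureTheory.intervalIntegral_tendsto_integral`).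
-/

namespace Pool.Agent.ZC

open Complex MeasureTheory

theorem line_integrable {a : ℝ} {F : ℂ → ℂ} {C : ℝ}
    (hF : ∀ τ : ℝ, ContinuousAt F (a + τ * I))
    (hC : ∀ τ : ℝ, ‖F (a + τ * I)‖ ≤ C / (1 + τ ^ 2)) :
    Integrable fun τ : ℝ => F (a + τ * I) := by
  have hcont : Continuous fun τ : ℝ => F (a + τ * I) := by
    rw [continuous_iff_continuousAt]
    intro τ
    have h1 : ContinuousAt (fun τ : ℝ => (a : ℂ) + τ * I) τ := by fun_prop
    exact ContinuousAt.comp (f := fun τ : ℝ => (a : ℂ) + τ * I) (g := F) (hF τ) h1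
  refine Integrable.mono' (integrable_inv_one_add_sq.const_mul C) hcont.aestronglyMeasurable ?_
  refine Filter.Eventually.of_forall fun τ => ?_
  simpa [div_eq_mul_inv] using hC τ

theorem strip_shift {a b : ℝ} (hab : a ≤ b) {F : ℂ → ℂ} {C : ℝ}
    (hF : ∀ s : ℂ, a ≤ s.re → s.re ≤ b → DifferentiableAt ℂ F s)
    (hC : ∀ s : ℂ, a ≤ s.re → s.re ≤ b → ‖F s‖ ≤ C / (1 + s.im ^ 2)) :
    ∫ τ : ℝ, F (a + τ * I) = ∫ τ : ℝ, F (b + τ * I) := by
  have hC0 : 0 ≤ C := by
    have h := hC (a : ℂ) (by simp) (by simpa using hab)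
    have h2 := (norm_nonneg _).trans h
    simpa using h2
  have hint : ∀ c : ℝ, a ≤ c → c ≤ b → Integrable fun τ : ℝ => F (c + τ * I) := fun c h1 h2 =>
    line_integrable (C := C)
      (fun τ => (hF _ (by simpa using h1) (by simpa using h2)).continuousAt)
      (fun τ => by simpa using hC (c + τ * I) (by simpa using h1) (by simpa using h2))
  have hl : ∀ c : ℝ, a ≤ c → c ≤ b →
      Filter.Tendsto (fun R : ℝ => ∫ y in (-R)..R, F (c + y * I)) Filter.atTop
        (nhds (∫ τ : ℝ, F (c + τ * I))) := fun c h1 h2 =>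
    intervalIntegral_tendsto_integral (hint c h1 h2) Filter.tendsto_neg_atTop_atBot
      Filter.tendsto_id
  have hrect : ∀ R : ℝ, I • (∫ y in (-R)..R, F (b + y * I)) - I • (∫ y in (-R)..R, F (a + y * I))
      = (∫ x in a..b, F (x + R * I)) - ∫ x in a..b, F (x + ((-R : ℝ) : ℂ) * I) := by
    intro R
    have h := Complex.integral_boundary_rect_eq_zero_of_differentiableOn F
      (⟨a, -R⟩ : ℂ) (⟨b, R⟩ : ℂ) (by
        intro s hs
        have h1 := hs.1
        simp only [Set.mem_preimage, Set.uIcc_of_le hab, Set.mem_Icc] at h1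
        exact (hF s h1.1 h1.2).differentiableWithinAt)
    simp only at h
    have h2 : (I • (∫ y in (-R)..R, F (b + y * I)) - I • (∫ y in (-R)..R, F (a + y * I)))
      - ((∫ x in a..b, F (x + R * I)) - ∫ x in a..b, F (x + ((-R : ℝ) : ℂ) * I)) = 0 := by
      rw [← h]
      ring
    exact sub_eq_zero.1 h2
  have hside : ∀ R : ℝ, ‖∫ x in a..b, F (x + R * I)‖ ≤ C / (1 + R ^ 2) * (b - a) := by
    intro R
    have h := intervalIntegral.norm_integral_le_of_norm_le_const (a := a) (b := b)
      (f := fun x : ℝ => F (x + R * I)) (C := C / (1 + R ^ 2)) (by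
        intro x hx
        rw [Set.uIoc_of_le hab] at hx
        simpa using hC (x + R * I) (by simpa using hx.1.le) (by simpa using hx.2))
    rwa [abs_of_nonneg (by linarith)] at h
  have hlim0 : Filter.Tendsto (fun R : ℝ => C / (1 + R ^ 2) * (b - a)) Filter.atTop (nhds 0) := by
    have h1 : Filter.Tendsto (fun R : ℝ => 1 + R ^ 2) Filter.atTop Filter.atTop :=
      Filter.tendsto_atTop_add_const_left _ _ (Filter.tendsto_pow_atTop (by norm_num))
    have h2 := (Filter.Tendsto.const_div_atTop h1 C).mul_const (b - a)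
    simpa using h2
  have hs1 : Filter.Tendsto (fun R : ℝ => ∫ x in a..b, F (x + R * I)) Filter.atTop (nhds 0) :=
    squeeze_zero_norm hside hlim0
  have hs2 : Filter.Tendsto (fun R : ℝ => ∫ x in a..b, F (x + ((-R : ℝ) : ℂ) * I)) Filter.atTop
      (nhds 0) := by
    refine squeeze_zero_norm (fun R => ?_) hlim0
    simpa using hside (-R)
  have hL := ((hl b hab le_rfl).const_smul I).sub ((hl a le_rfl hab).const_smul I)
  have hR := hs1.sub hs2
  have heq := tendsto_nhds_unique (hL.congr hrect) hR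
  rw [sub_zero, sub_eq_zero] at heq
  have := smul_right_injective ℂ I_ne_zero heq
  exact this.symm

end Pool.Agent.ZC
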